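import Pool.Agent.Helper62.BX.Stm2
import Pool.Agent.Helper90.BX.XL
import Pool.Agent.Helper90.BM.FewKMain

/-!
# `X_B`: the families `y ^ 2 = (x - φ(s, t)) f(s, x)` (after helper90's `fewK` and `x_L`)
-/

set_option autoImplicit false

open Polynomial Matrix Finset NumberField IsDedekindDomain

namespace Pool.Agent.Helper18.BX

open Pool.Agent.Helper62.BM Pool.Agent.Helper62.BX Pool.Agent.Helper90.BM Pool.Agent.Helper4.BM
open Pool.Agent.Helper90.BX (rootsR)

/-- **X11.** -/
theorem x_B (hSp : X_Spread) (hG : S_FewG) : X_B := by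
  classical
  intro K _ _ r g hg f φ hf hsep hφ G hG0 ε hε
  have hA1 : S_A1 := by
    intro k _ p _ _ hp g a c s hc hc0
    exact Pool.Agent.Helper4.BM.A1 k p hp g a c s hc hc0
  have hf0 : f ≠ 0 := by
    intro h
    rw [h, natDegree_zero] at hf
    omega
  obtain ⟨A, a, hFG, hainj, hfact⟩ := rootsR (Rp K r) (2 * g) f hf hsep
  have hclinj : Function.Injective (algebraMap (Rp K r) (Cl K r)) := by
    rw [IsScalarTower.algebraMap_eq (Rp K r) (FractionRing (Rp K r)) (Cl K r)]
    exact (algebraMap (FractionRing (Rp K r)) (Cl K r)).injective.comp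
      (IsFractionRing.injective (Rp K r) (FractionRing (Rp K r)))
  have h1 : Function.Injective (algebraMap (Rp K r) A) := by
    intro x y hxy
    have h2 := congrArg (fun z : A => (z : Cl K r)) hxy
    exact hclinj h2
  have h2 : Algebra.FiniteType (Rp K r) A := (Subalgebra.fg_iff_finiteType A).mp hFG
  have hCZ0 : CharZero (Rp K r) := inferInstance
  have hCZ : CharZero A := charZero_of_injective_algebraMap h1
  have hc0 : f.leadingCoeff ≠ 0 := leadingCoeff_ne_zero.2 hf0
  have hφ0 : φ ≠ 0 := by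
    intro h
    rw [h, natDegree_zero] at hφ
    omega
  have hl0 : φ.leadingCoeff ≠ 0 := leadingCoeff_ne_zero.2 hφ0
  have hGA0 : MvPolynomial.map (mapRingHom (algebraMap (Rp K r) A)) G ≠ 0 := by
    intro h
    apply hG0
    apply MvPolynomial.map_injective (mapRingHom (algebraMap (Rp K r) A)) (map_injective _ h1)
    rw [h, map_zero]
  obtain ⟨H, hH0, hH⟩ := A2 A g _ hGA0
  set d := φ.natDegree with hd
  have hdpos : (0 : ℝ) < d := by exact_mod_cast hφ
  have hcA : algebraMap (Rp K r) A f.leadingCoeff ≠ 0 := by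
    intro h
    exact hc0 (h1 (by rw [h, map_zero]))
  obtain ⟨p₀, a₀, ha₀, hfew⟩ := hG g hg A a hainj H hH0 (ε / (2 * d)) (by positivity)
  set D : A := ∏ u ∈ (univ : Finset (Fin (2 * g) × Fin (2 * g))).filter (fun u => u.1 ≠ u.2),
    (a u.1 - a u.2) with hD
  have hD0 : D ≠ 0 := by
    rw [hD, Finset.prod_ne_zero_iff]
    intro u hu
    rw [Finset.mem_filter] at hu
    exact sub_ne_zero.2 fun h => hu.2 (hainj h)
  set b : A := a₀ * algebraMap (Rp K r) A f.leadingCoeff * D with hb
  have hb0 : b ≠ 0 := mul_ne_zero (mul_ne_zero ha₀ hcA) hD0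
  obtain ⟨c₀, hc₀, hsp⟩ := hSp (Rp K r) A h1 h2 b hb0
  obtain ⟨N, hN⟩ := exists_nat_gt (4 * g * d / ε : ℝ)
  have h20 : (2 : 𝓞 K) ≠ 0 := two_ne_zero
  refine ⟨c₀ * φ.leadingCoeff, mul_ne_zero hc₀ hl0, ?_⟩
  refine (((finite_mem (K := K) 2 h20).union (finite_le (K := K) p₀)).union
    (finite_le (K := K) N)).subset ?_
  rintro v ⟨hv, -, σ, hσ, hv'⟩
  by_contra hno
  simp only [Set.mem_union, Set.mem_ofPred_eq, not_or, not_le] at hno
  obtain ⟨⟨h2v, hp0⟩, hpN⟩ := hno
  rw [lt_iff_not_ge] at hv'
  apply hv'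
  set p := Ideal.absNorm v.asIdeal with hp
  have hFp : Fact p.Prime := ⟨hv⟩
  have hcharκ := charP_res v hv
  rw [← hp] at hcharκ
  set κ := v.asIdeal.ResidueField with hκ
  set ψ : Rp K r →+* κ := (algebraMap (𝓞 K) κ).comp (evs σ) with hψ
  have hψ0 : ∀ x : Rp K r, evs σ x ∉ v.asIdeal → ψ x ≠ 0 := by
    intro x hx h
    apply hx
    rw [← Ideal.algebraMap_residueField_eq_zero]
    exact h
  have hσ' : ψ (c₀ * φ.leadingCoeff) ≠ 0 := hψ0 _ hσ
  rw [map_mul] at hσ'
  have hψc : ψ c₀ ≠ 0 := left_ne_zero_of_mul hσ'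
  have hψl : ψ φ.leadingCoeff ≠ 0 := right_ne_zero_of_mul hσ'
  have hψs : Function.Surjective ψ := by
    intro x
    obtain ⟨y, hy⟩ := Ideal.algebraMap_residueField_surjective v.asIdeal x
    refine ⟨MvPolynomial.C y, ?_⟩
    rw [hψ, RingHom.comp_apply]
    unfold evs
    rw [MvPolynomial.eval_C, hy]
  obtain ⟨k, hk, χ, ι', hcomp, hχ⟩ := hsp κ ψ hψs hψc
  have hchar : CharP k p := charP_of_injective_ringHom ι'.injective p
  have hcn := card_res v
  rw [← hp] at hcn
  have hfinite : Finite κ := Nat.finite_of_card_ne_zero (by rw [hcn]; exact hv.ne_zero)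
  have : Fintype κ := Fintype.ofFinite _
  rw [Nat.card_eq_fintype_card] at hcn
  have hpow : ∀ t : κ, t ^ p = t := fun t => by
    rw [← hcn]
    exact FiniteField.pow_card t
  have hp2 : p ≠ 2 := by
    intro h
    apply h2v
    have h5 : (p : 𝓞 K) ∈ v.asIdeal := Ideal.absNorm_mem v.asIdeal
    rw [h] at h5
    exact_mod_cast h5
  -- consequences of `χ b ≠ 0`
  have hχ1 : χ a₀ ≠ 0 := fun h => hχ (by rw [hb, map_mul, map_mul, h, zero_mul, zero_mul])
  have hχ2 : χ (algebraMap (Rp K r) A f.leadingCoeff) ≠ 0 := fun h =>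
    hχ (by rw [hb, map_mul, map_mul, h, mul_zero, zero_mul])
  have hχ3 : Function.Injective fun j => χ (a j) := by
    intro i j hij
    by_contra hne
    apply hχ
    have h5 : χ D = 0 := by
      rw [hD, map_prod]
      exact Finset.prod_eq_zero (i := (i, j)) (by simp [hne]) (by
        simp only [map_sub]
        exact sub_eq_zero.2 hij)
    rw [hb, map_mul, h5, mul_zero]
  set c : k := χ (algebraMap (Rp K r) A f.leadingCoeff) with hc
  have hcι : c = ι' (ψ f.leadingCoeff) := RingHom.congr_fun hcomp _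
  have hcp : c ^ p = c := by rw [hcι, ← map_pow, hpow]
  set fκ : κ[X] := f.map ψ with hfκ
  have hfk : fκ.map ι' = C c * ∏ j, (X - C (χ (a j))) := by
    rw [hfκ, Polynomial.map_map, ← hcomp, ← Polynomial.map_map, hfact, Polynomial.map_mul,
      Polynomial.map_C, Polynomial.map_prod]
    simp only [Polynomial.map_sub, Polynomial.map_X, Polynomial.map_C]
    rfl
  have hlc : ψ f.leadingCoeff ≠ 0 := by
    intro h
    apply hχ2
    rw [hcι, h, map_zero]
  have hfdeg : fκ.natDegree = 2 * g := by
    rw [hfκ, natDegree_map_of_leadingCoeff_ne_zero _ hlc, hf]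
  have hfκ0 : fκ ≠ 0 := by
    intro h
    rw [h, natDegree_zero] at hfdeg
    omega
  have hfsep : fκ.Separable := by
    rw [← Polynomial.separable_map ι', hfk]
    exact Separable.unit_mul (isUnit_C.2 (isUnit_iff_ne_zero.2 hχ2))
      (separable_prod_X_sub_C_iff.2 hχ3)
  set fs : (𝓞 K)[X] := f.map (evs σ) with hfs
  set φs : (𝓞 K)[X] := φ.map (evs σ) with hφs
  set Gs : MvPolynomial (Fin g × Fin g) (𝓞 K)[X] :=
    MvPolynomial.map (mapRingHom (evs σ)) G with hGs
  have hfsκ : fs.map (algebraMap (𝓞 K) κ) = fκ := by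
    rw [hfs, hfκ, Polynomial.map_map]
  have hφsκ : φs.map (algebraMap (𝓞 K) κ) = φ.map ψ := by
    rw [hφs, Polynomial.map_map]
  -- the bad members
  set rr : ℕ → κ := fun t => algebraMap (𝓞 K) κ (φs.eval (t : 𝓞 K)) with hr
  obtain ⟨Z2, hZ2⟩ : ∃ Z2 : Finset κ, Z2 =
    univ.filter (fun s => MvPolynomial.eval₂ ((evalRingHom (ι' s)).comp (mapRingHom χ))
      (fun u : Fin g × Fin g => (YX p g (fun j => χ (a j)) u.1 (lo u.2)).eval (ι' s)) H = 0) :=
    ⟨_, rfl⟩
  set Z : Finset κ := univ.filter (fun s => fκ.eval s = 0) ∪ Z2 with hZ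
  have hZcard : (Z.card : ℝ) ≤ 2 * g + ε / (2 * d) * p := by
    have e1 : (univ.filter (fun s => fκ.eval s = 0)).card ≤ 2 * g := by
      have e2 : univ.filter (fun s => fκ.eval s = 0) ⊆ fκ.roots.toFinset := by
        intro s hs
        rw [Finset.mem_filter] at hs
        rw [Multiset.mem_toFinset, mem_roots hfκ0]
        exact hs.2
      refine (Finset.card_le_card e2).trans ?_
      refine (Multiset.toFinset_card_le _).trans ?_
      rw [← hfdeg]
      exact card_roots' fκ
    have e3 := hfew p k χ hp0.le hχ1 (Z2.image ι') (by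
        intro t ht
        obtain ⟨s, hs, rfl⟩ := Finset.mem_image.1 ht
        rw [hZ2, Finset.mem_filter] at hs
        exact ⟨by rw [← map_pow, hpow], hs.2⟩)
    rw [Finset.card_image_of_injective _ ι'.injective] at e3
    have e4 : (Z.card : ℝ) ≤ ((univ.filter (fun s => fκ.eval s = 0)).card : ℝ) + Z2.card := by
      exact_mod_cast Finset.card_union_le _ _
    refine e4.trans (add_le_add ?_ e3)
    exact_mod_cast e1
  have hbad : ∀ t : ℕ, ¬ (GoodOrd g (2 * g + 1) (memb fs φs t) v ∧
      Avoids g Gs (φs.eval (t : 𝓞 K)) (memb fs φs t) v) → rr t ∈ Z := by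
    intro t ht
    by_contra hcon
    apply ht
    rw [hZ, Finset.mem_union, hZ2, Finset.mem_filter, Finset.mem_filter, not_or, not_and,
      not_and] at hcon
    have hc1 : fκ.eval (rr t) ≠ 0 := hcon.1 (Finset.mem_univ _)
    have hc2 := hcon.2 (Finset.mem_univ _)
    have hrd : rd v (memb fs φs t) = (X - C (rr t)) * fκ := by
      unfold rd memb
      rw [Polynomial.map_mul, Polynomial.map_sub, Polynomial.map_X, Polynomial.map_C, hfsκ]
    have hrk : (rd v (memb fs φs t)).map ι' =
        (X - C (ι' (rr t))) * (C c * ∏ j, (X - C (χ (a j)))) := by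
      rw [hrd, Polynomial.map_mul, Polynomial.map_sub, Polynomial.map_X, Polynomial.map_C, hfk]
    -- the Hasse-Witt matrix
    have hW : (∀ i j : Fin g, ι' (hasseWitt p g (rd v (memb fs φs t)) i j) =
        (YX p g (fun j => χ (a j)) i (lo j)).eval (ι' (rr t))) ∨
        (∀ i j : Fin g, ι' (hasseWitt p g (rd v (memb fs φs t)) i j) =
        -(YX p g (fun j => χ (a j)) i (lo j)).eval (ι' (rr t))) := by
      rcases hA1 k p hp2 g (fun j => χ (a j)) c (ι' (rr t)) hcp hχ2 with h | h
      · left
        intro i j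
        rw [hasseWitt_map, hrk, h]
      · right
        intro i j
        rw [hasseWitt_map, hrk, h]
    have hnot := fun h => hc2 (hH k ((evalRingHom (ι' (rr t))).comp (mapRingHom χ))
      (fun u : Fin g × Fin g => (YX p g (fun j => χ (a j)) u.1 (lo u.2)).eval (ι' (rr t))) h)
    rw [imp_false, not_or, not_or] at hnot
    obtain ⟨hn1, hn2, hn3⟩ := hnot
    refine ⟨⟨h2v, ?_, ?_, ?_⟩, ?_⟩
    · rw [hrd, natDegree_mul (X_sub_C_ne_zero _) hfκ0, natDegree_X_sub_C, hfdeg, add_comm]
    · rw [hrd]
      refine Polynomial.Separable.mul separable_X_sub_C hfsep ?_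
      rw [(irreducible_X_sub_C (rr t)).coprime_iff_not_dvd, dvd_iff_isRoot]
      exact hc1
    · intro hdet
      apply hn1
      have hdet' : ι' ((hasseWitt p g (rd v (memb fs φs t))).det) = 0 := by
        rw [hdet, map_zero]
      rw [RingHom.map_det] at hdet'
      rcases hW with h | h
      · rw [← hdet']
        congr 1
        ext i j
        rw [Matrix.of_apply, RingHom.mapMatrix_apply, Matrix.map_apply, h]
      · have h5 : ι'.mapMatrix (hasseWitt p g (rd v (memb fs φs t))) =
            -(Matrix.of fun i j : Fin g =>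
              (YX p g (fun j => χ (a j)) i (lo j)).eval (ι' (rr t))) := by
          ext i j
          rw [Matrix.neg_apply, Matrix.of_apply, RingHom.mapMatrix_apply, Matrix.map_apply, h]
        rw [h5, Matrix.det_neg] at hdet'
        rcases mul_eq_zero.1 hdet' with h6 | h6
        · exact absurd h6 (pow_ne_zero _ (neg_ne_zero.2 one_ne_zero))
        · exact h6
    · intro hav
      have h5 : ∀ W : Fin g × Fin g → k,
          MvPolynomial.eval₂ ((evalRingHom (ι' (rr t))).comp (mapRingHom χ)) W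
            (MvPolynomial.map (mapRingHom (algebraMap (Rp K r) A)) G) =
          MvPolynomial.eval₂ (ι'.comp ((algebraMap (𝓞 K) κ).comp
            (evalRingHom (φs.eval (t : 𝓞 K))))) W Gs := by
        intro W
        rw [hGs, MvPolynomial.eval₂_map, MvPolynomial.eval₂_map]
        congr 1
        refine Polynomial.ringHom_ext (fun x => ?_) ?_
        · simp only [RingHom.comp_apply, coe_mapRingHom, map_C, coe_evalRingHom, eval_C]
          exact (RingHom.congr_fun hcomp x)
        · simp only [RingHom.comp_apply, coe_mapRingHom, map_X, coe_evalRingHom, eval_X]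
          rfl
      have h6 := congrArg ι' hav
      rw [map_zero, MvPolynomial.eval₂_comp_left] at h6
      rcases hW with h | h
      · apply hn2
        rw [h5, ← h6]
        congr 1
        funext u
        exact (h u.1 u.2).symm
      · apply hn3
        rw [h5, ← h6]
        congr 1
        funext u
        exact (h u.1 u.2).symm
  have hfib : ∀ s : κ, (((range p).filter fun t : ℕ => ¬ (GoodOrd g (2 * g + 1) (memb fs φs t) v ∧
      Avoids g Gs (φs.eval (t : 𝓞 K)) (memb fs φs t) v)).filter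
        (fun t => rr t = s)).card ≤ d := by
    intro s
    have hdegφ : (φ.map ψ).natDegree = d := natDegree_map_of_leadingCoeff_ne_zero _ hψl
    have hne : φ.map ψ - C s ≠ 0 := by
      intro h
      rw [sub_eq_zero] at h
      rw [h, natDegree_C] at hdegφ
      omega
    have hdeg2 : (φ.map ψ - C s).natDegree ≤ d := by
      rw [natDegree_sub_C, hdegφ]
    have hinjOn : Set.InjOn (fun t : ℕ => (t : κ)) (range p : Set ℕ) := by
      intro x hx y hy hxy
      rw [Finset.coe_range, Set.mem_Iio] at hx hy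
      have := (CharP.natCast_eq_natCast κ p).1 hxy
      rw [Nat.ModEq, Nat.mod_eq_of_lt hx, Nat.mod_eq_of_lt hy] at this
      exact this
    have hsub : (((range p).filter fun t : ℕ => ¬ (GoodOrd g (2 * g + 1) (memb fs φs t) v ∧
      Avoids g Gs (φs.eval (t : 𝓞 K)) (memb fs φs t) v)).filter (fun t => rr t = s)).image
        (fun t : ℕ => (t : κ)) ⊆ (φ.map ψ - C s).roots.toFinset := by
      intro x hx
      obtain ⟨t, ht, rfl⟩ := Finset.mem_image.1 hx
      have hts := (Finset.mem_filter.1 ht).2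
      rw [Multiset.mem_toFinset, mem_roots hne, IsRoot.def, eval_sub, eval_C, sub_eq_zero,
        ← hts, hr]
      simp only
      rw [← Polynomial.eval₂_at_apply, Polynomial.eval₂_eq_eval_map, map_natCast, hφsκ]
    calc _ = ((((range p).filter fun t : ℕ => ¬ (GoodOrd g (2 * g + 1) (memb fs φs t) v ∧
      Avoids g Gs (φs.eval (t : 𝓞 K)) (memb fs φs t) v)).filter (fun t => rr t = s)).image
        (fun t : ℕ => (t : κ))).card := by
          rw [Finset.card_image_of_injOn]
          refine hinjOn.mono ?_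
          intro t ht
          exact Finset.mem_coe.2 (Finset.mem_filter.1 (Finset.mem_filter.1
            (Finset.mem_coe.1 ht)).1).1
      _ ≤ (φ.map ψ - C s).roots.toFinset.card := Finset.card_le_card hsub
      _ ≤ (φ.map ψ - C s).roots.card := Multiset.toFinset_card_le _
      _ ≤ (φ.map ψ - C s).natDegree := card_roots' _
      _ ≤ d := hdeg2
  have hcount : ((range p).filter fun t : ℕ => ¬ (GoodOrd g (2 * g + 1) (memb fs φs t) v ∧
      Avoids g Gs (φs.eval (t : 𝓞 K)) (memb fs φs t) v)).card ≤ d * Z.card := by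
    refine (Finset.card_le_mul_card_image (f := rr) _ d (fun s _ => hfib s)).trans ?_
    refine Nat.mul_le_mul_left _ (Finset.card_le_card ?_)
    intro s hs
    obtain ⟨t, ht, rfl⟩ := Finset.mem_image.1 hs
    exact hbad t (Finset.mem_filter.1 ht).2
  have hcount' : ((((range p).filter fun t : ℕ => ¬ (GoodOrd g (2 * g + 1) (memb fs φs t) v ∧
      Avoids g Gs (φs.eval (t : 𝓞 K)) (memb fs φs t) v)).card : ℕ) : ℝ) ≤ d * Z.card := by
    exact_mod_cast hcount
  have ecard : ∀ S T : Finset ℕ, (∀ t, t ∈ S ↔ t ∈ T) → ((S.card : ℕ) : ℝ) = (T.card : ℕ) :=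
    fun S T h => by rw [Finset.ext h]
  refine (ecard _ _ fun t => ?_).le.trans (hcount'.trans ?_)
  · rw [Finset.mem_filter, Finset.mem_filter]
    exact Iff.rfl
  have hpN' : (N : ℝ) < p := by exact_mod_cast hpN
  have h6 : 4 * g * d / ε < p := hN.trans hpN'
  rw [div_lt_iff₀ hε] at h6
  calc (d : ℝ) * Z.card ≤ d * (2 * g + ε / (2 * d) * p) :=
        mul_le_mul_of_nonneg_left hZcard hdpos.le
    _ = 2 * g * d + ε * p / 2 := by field_simp
    _ ≤ ε * p := by linarith

end Pool.Agent.Helper18.BX
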